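import Pool.Agent.H83.ZF.Final

/-! In every model `(V, E)` of `ZF + WF^s_b1` each infinite set is the disjoint union of two copies
of itself. -/

namespace Pool.Agent.Results.MP_b8a24e_lc.Doubling

open Pool.Agent.H83.ZF

universe u

theorem result {V : Type u} {E : V → V → Prop} (hE : IsZF E) (hWF : WFs E) (x : V)
    (hx : ¬ Fin' E x) : Splits E x :=
  final_double hE hWF x hx

end Pool.Agent.Results.MP_b8a24e_lc.Doubling
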