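import Pool.Agent.H83.ZF.Final

/-! In every model `(V, E)` of `ZF + WF^s_b1` the non-well-orderable sets have a finite basis `B`
of minimal non-well-orderable cardinals, each of which is twice itself, and if the axiom of choice
fails, then some member of `B` is equipotent to a set of sets of ordinals. -/

namespace Pool.Agent.Results.MP_b8a24e_lc.FailureBasis

open Pool.Agent.H83.ZF

universe u

theorem result {V : Type u} {E : V → V → Prop} (hE : IsZF E) (hWF : WFs E) :
    ∃ B, Fin' E B ∧ (∀ b, E b B → IsMin E b ∧ Splits E b) ∧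
      (∀ b, E b B → ∀ b', E b' B → LeS E b b' → b = b') ∧
      (∀ x, ¬ WOble E x ↔ ∃ b, E b B ∧ LeI E b x) ∧
      ((∃ x, ¬ WOble E x) → ∃ b, E b B ∧
        ∃ o Y, IsOrd E o ∧ (∀ y, E y Y → Sub E y o) ∧ EqC E b Y) :=
  final_failure hE hWF

end Pool.Agent.Results.MP_b8a24e_lc.FailureBasis
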