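import Pool.Agent.H83.ZF.Final

/-! In every model `(V, E)` of `ZF` the principle `WF^s_b1` holds if and only if both the
partition principle and the injective well-foundedness principle `WF^i_b1` hold. -/

namespace Pool.Agent.Results.MP_b8a24e_lc.PartitionPrinciple

open Pool.Agent.H83.ZF

universe u

theorem result {V : Type u} {E : V → V → Prop} (hE : IsZF E) : WFs E ↔ PPr E ∧ WFi E :=
  final_pp hE

end Pool.Agent.Results.MP_b8a24e_lc.PartitionPrinciple
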