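import Pool.Agent.H83.ZF.Final

/-! In every model `(V, E)` of `ZF + WF^s_b1` each set is the disjoint union of a well-orderable
set of prime sets, each of which is a singleton or the disjoint union of two copies of itself. -/

namespace Pool.Agent.Results.MP_b8a24e_lc.PrimeDecomposition

open Pool.Agent.H83.ZF

universe u

theorem result {V : Type u} {E : V → V → Prop} (hE : IsZF E) (hWF : WFs E) (x : V) :
    ∃ D, WOble E D ∧
      (∀ d, E d D → Sub E d x ∧ IsPrime E d ∧ ((∃ y, ∀ z, E z d ↔ z = y) ∨ Splits E d)) ∧
      ∀ y, E y x → ∃ d, E d D ∧ E y d ∧ ∀ d', E d' D → E y d' → d' = d :=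
  final_prime hE hWF x

end Pool.Agent.Results.MP_b8a24e_lc.PrimeDecomposition
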